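import Pool.Agent.Helper54.CG.Goals

/-!
# Project CG (MP_c70db9_ag), packet CC: pull back of a cusp where the map is a local isomorphism
-/

set_option autoImplicit false

namespace Pool.Agent.Helper99.CG.CC

open MvPolynomial Pool.Agent.Helper54.CG
open Pool.Agent.Helper16.Cusp (V R dd)

theorem eval_pull (v : V) (P : R) : eval v (pull P) = eval (phi v) P := by
  unfold pull phi
  have h : (eval v).comp (aeval ff : R →ₐ[ℂ] R).toRingHom = eval (fun i => eval v (ff i)) := by
    apply MvPolynomial.ringHom_ext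
    · intro r
      simp
    · intro i
      simp
  exact RingHom.congr_fun h P

/-- **CC** -/
theorem t (h1 : G_CH) (h2 : G_INV) : G_CC := by
  intro F v hF hR
  obtain ⟨E, a, b, α, β, γ, hE, h3, h4, h5, h6, h7, ⟨u, hu1, hu2⟩, w, hw⟩ := hF
  obtain ⟨u0, hu0⟩ := h2 v hR u
  obtain ⟨w0, hw0⟩ := h2 v hR w
  have hu' : (fun i => dd (ff i) v u0) = u := funext hu0
  have hw' : (fun i => dd (ff i) v w0) = w := funext hw0
  refine ⟨pull E, pull a, pull b, pull α, pull β, pull γ, ?_, ?_, ?_, ?_, ?_, ?_, ⟨u0, ?_, ?_⟩,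
    w0, ?_⟩
  · unfold pull
    rw [← map_mul, hE]
    simp only [map_add, map_mul, map_pow]
  · rw [eval_pull]
    exact h3
  · rw [eval_pull]
    exact h4
  · rw [eval_pull]
    exact h5
  · rw [eval_pull]
    exact h6
  · rw [eval_pull]
    exact h7
  · rw [h1, hu']
    exact hu1
  · rw [h1, hu']
    exact hu2
  · rw [h1, hw']
    exact hw

end Pool.Agent.Helper99.CG.CC
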