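import Pool.Agent.Helper54.CG.NKGoals

/-!
# Project CG (MP_c70db9_ag), packet NKD1: the boolean check read as inequalities
-/

set_option autoImplicit false

namespace Pool.Agent.Helper99.CG.NKD1

open Pool.Agent.Helper54.CG.NK

/-- a Gaussian integer as a complex number -/
noncomputable def toC (a : ℤ × ℤ) : ℂ := (a.1 : ℂ) + (a.2 : ℂ) * Complex.I

theorem norm_toC (a : ℤ × ℤ) : ‖toC a‖ ≤ ((a.1.natAbs + a.2.natAbs : ℕ) : ℝ) := by
  unfold toC
  have h1 : ‖((a.1 : ℤ) : ℂ)‖ = (a.1.natAbs : ℝ) := by
    rw [Complex.norm_intCast, Nat.cast_natAbs, Int.cast_abs]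
  have h2 : ‖((a.2 : ℤ) : ℂ) * Complex.I‖ = (a.2.natAbs : ℝ) := by
    rw [norm_mul, Complex.norm_I, mul_one, Complex.norm_intCast, Nat.cast_natAbs, Int.cast_abs]
  calc ‖(a.1 : ℂ) + (a.2 : ℂ) * Complex.I‖ ≤ ‖(a.1 : ℂ)‖ + ‖(a.2 : ℂ) * Complex.I‖ :=
        norm_add_le _ _
    _ = _ := by rw [h1, h2]; push_cast; rfl

theorem cdot_eq : ∀ (N : ℕ) (as bs : List (ℤ × ℤ)), as.length = N → bs.length = N →
    toC (cdot as bs) = ∑ j ∈ Finset.range N, toC (as.getD j (0, 0)) * toC (bs.getD j (0, 0)) := by
  intro N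
  induction N with
  | zero =>
    intro as bs ha hb
    rw [List.length_eq_zero_iff] at ha
    subst ha
    simp [cdot, toC]
  | succ N ih =>
    intro as bs ha hb
    cases as with
    | nil => simp at ha
    | cons a as =>
      cases bs with
      | nil => simp at hb
      | cons b bs =>
        rw [Finset.sum_range_succ']
        simp only [List.getD_cons_succ, List.getD_cons_zero]
        rw [← ih as bs (by simpa using ha) (by simpa using hb)]
        have hc : cdot (a :: as) (b :: bs) = (a.1 * b.1 - a.2 * b.2 + (cdot as bs).1,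
            a.1 * b.2 + a.2 * b.1 + (cdot as bs).2) := rfl
        rw [hc]
        unfold toC
        push_cast
        have hI : Complex.I * Complex.I = -1 := Complex.I_mul_I
        linear_combination (-(a.2 : ℂ) * (b.2 : ℂ)) * hI

theorem rdot_ge : ∀ (N : ℕ) (as : List (ℤ × ℤ)) (bs : List ℕ), as.length = N → bs.length = N →
    ∑ j ∈ Finset.range N, ‖toC (as.getD j (0, 0))‖ * ((bs.getD j 0 : ℕ) : ℝ) ≤
      ((rdot as bs : ℕ) : ℝ) := by
  intro N
  induction N with
  | zero =>
    intro as bs ha hb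
    simp
  | succ N ih =>
    intro as bs ha hb
    cases as with
    | nil => simp at ha
    | cons a as =>
      cases bs with
      | nil => simp at hb
      | cons b bs =>
        rw [Finset.sum_range_succ']
        simp only [List.getD_cons_succ, List.getD_cons_zero]
        have h1 := ih as bs (by simpa using ha) (by simpa using hb)
        have h2 := mul_le_mul_of_nonneg_right (norm_toC a) (Nat.cast_nonneg (α := ℝ) b)
        unfold rdot
        push_cast
        push_cast at h2
        linarith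

theorem testRows_read (p q rho : ℕ) (vm : List (ℤ × ℤ)) (vr : List ℕ)
    (cols : List (List (ℤ × ℤ) × List ℕ)) : ∀ (A : List (List (ℤ × ℤ))) (r0 : ℕ),
    testRows p q rho vm vr cols r0 A = true → ∀ r, r < A.length →
      testVal q rho vm vr (A.getD r []) = true ∧
        2 * rowSum p q (r0 + r) (A.getD r []) 0 cols ≤ 2 ^ (p + q) := by
  intro A
  induction A with
  | nil =>
    intro r0 _ r hr
    simp at hr
  | cons a as ih =>
    intro r0 h r hr
    unfold testRows at h
    rw [Bool.and_eq_true, Bool.and_eq_true, decide_eq_true_eq] at h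
    cases r with
    | zero =>
      rw [List.getD_cons_zero]
      exact ⟨h.1.1, h.1.2⟩
    | succ r =>
      rw [List.getD_cons_succ]
      have h1 := ih (r0 + 1) h.2 r (by simpa using hr)
      rw [show r0 + 1 + r = r0 + (r + 1) by ring] at h1
      exact h1

theorem rowSum_eq (p q r : ℕ) (a : List (ℤ × ℤ)) : ∀ (cols : List (List (ℤ × ℤ) × List ℕ))
    (k0 : ℕ), rowSum p q r a k0 cols = ∑ k ∈ Finset.range cols.length,
      entry p q (decide (k0 + k = r)) a (cols.getD k ([], [])).1 (cols.getD k ([], [])).2 := by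
  intro cols
  induction cols with
  | nil =>
    intro k0
    simp [rowSum]
  | cons c cs ih =>
    intro k0
    rw [List.length_cons, Finset.sum_range_succ']
    simp only [List.getD_cons_succ, List.getD_cons_zero]
    unfold rowSum
    rw [ih (k0 + 1), add_comm]
    congr 1
    refine Finset.sum_congr rfl fun k _ => ?_
    rw [show k0 + 1 + k = k0 + (k + 1) by ring]

theorem getD_map' {α β : Type} (f : α → β) (l : List α) (j : ℕ) (d : α) (d' : β)
    (hj : j < l.length) : (l.map f).getD j d' = f (l.getD j d) := by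
  rw [List.getD_eq_getElem _ _ (by simpa using hj), List.getD_eq_getElem _ _ hj, List.getElem_map]

/-- the main estimate for one entry -/
theorem entry_ge (p q N : ℕ) (diag : Bool) (a cm : List (ℤ × ℤ)) (cr : List ℕ)
    (ha : a.length = N) (hm : cm.length = N) (hr : cr.length = N) :
    ‖(if diag then (1 : ℂ) else 0) - ∑ j ∈ Finset.range N,
      toC (a.getD j (0, 0)) / 2 ^ q * (toC (cm.getD j (0, 0)) / 2 ^ p)‖ +
      ∑ j ∈ Finset.range N, ‖toC (a.getD j (0, 0)) / 2 ^ q‖ * (((cr.getD j 0 : ℕ) : ℝ) / 2 ^ p) ≤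
    ((entry p q diag a cm cr : ℕ) : ℝ) / 2 ^ (p + q) := by
  have hpos : (0 : ℝ) < 2 ^ (p + q) := by positivity
  have hne : (2 : ℂ) ^ (p + q) ≠ 0 := pow_ne_zero _ two_ne_zero
  have h1 : (if diag then (1 : ℂ) else 0) - ∑ j ∈ Finset.range N,
      toC (a.getD j (0, 0)) / 2 ^ q * (toC (cm.getD j (0, 0)) / 2 ^ p) =
      toC ((if diag then (2 : ℤ) ^ (p + q) else 0) - (cdot a cm).1, - (cdot a cm).2) /
        2 ^ (p + q) := by
    have h2 : ∑ j ∈ Finset.range N,
        toC (a.getD j (0, 0)) / 2 ^ q * (toC (cm.getD j (0, 0)) / 2 ^ p) =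
        toC (cdot a cm) / 2 ^ (p + q) := by
      rw [cdot_eq N a cm ha hm, Finset.sum_div]
      refine Finset.sum_congr rfl fun j _ => ?_
      rw [pow_add]
      field_simp
    rw [h2]
    unfold toC
    cases diag
    · simp only [Bool.false_eq_true, if_false]
      push_cast
      field_simp
      ring
    · simp only [if_true]
      push_cast
      field_simp
      ring
  have h3 : ‖toC ((if diag then (2 : ℤ) ^ (p + q) else 0) - (cdot a cm).1, - (cdot a cm).2) /
        2 ^ (p + q)‖ ≤ ((((if diag then (2 : ℤ) ^ (p + q) else 0) - (cdot a cm).1).natAbs +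
          (cdot a cm).2.natAbs : ℕ) : ℝ) / 2 ^ (p + q) := by
    rw [norm_div, norm_pow, Complex.norm_ofNat]
    refine div_le_div_of_nonneg_right ?_ hpos.le
    have := norm_toC ((if diag then (2 : ℤ) ^ (p + q) else 0) - (cdot a cm).1, - (cdot a cm).2)
    simpa [Int.natAbs_neg] using this
  have h4 : ∑ j ∈ Finset.range N, ‖toC (a.getD j (0, 0)) / 2 ^ q‖ *
      (((cr.getD j 0 : ℕ) : ℝ) / 2 ^ p) ≤ ((rdot a cr : ℕ) : ℝ) / 2 ^ (p + q) := by
    refine le_trans (le_of_eq ?_) (div_le_div_of_nonneg_right (rdot_ge N a cr ha hr) hpos.le)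
    rw [Finset.sum_div]
    refine Finset.sum_congr rfl fun j _ => ?_
    rw [norm_div, norm_pow, Complex.norm_ofNat, pow_add]
    field_simp
  rw [h1]
  refine (add_le_add h3 h4).trans (le_of_eq ?_)
  rw [← add_div]
  congr 1
  unfold entry
  push_cast
  cases diag <;> simp

theorem val_ge (p q rho N : ℕ) (a vm : List (ℤ × ℤ)) (vr : List ℕ) (ha : a.length = N)
    (hm : vm.length = N) (hr : vr.length = N) (ht : testVal q rho vm vr a = true) (V : ℕ → ℂ)
    (hV : ∀ j, j < N → ‖(2 : ℂ) ^ p * V j - toC (vm.getD j (0, 0))‖ ≤ ((vr.getD j 0 : ℕ) : ℝ)) :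
    ‖∑ j ∈ Finset.range N, toC (a.getD j (0, 0)) / 2 ^ q * V j‖ ≤ ((rho : ℝ) / 2 ^ p) / 2 := by
  have hpos : (0 : ℝ) < 2 ^ (p + q) := by positivity
  have h1 : ∑ j ∈ Finset.range N, toC (a.getD j (0, 0)) / 2 ^ q * V j =
      (toC (cdot a vm) + ∑ j ∈ Finset.range N, toC (a.getD j (0, 0)) *
        ((2 : ℂ) ^ p * V j - toC (vm.getD j (0, 0)))) / 2 ^ (p + q) := by
    rw [cdot_eq N a vm ha hm, ← Finset.sum_add_distrib, Finset.sum_div]
    refine Finset.sum_congr rfl fun j _ => ?_
    rw [pow_add]
    field_simp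
    ring
  have h2 : ‖∑ j ∈ Finset.range N, toC (a.getD j (0, 0)) *
      ((2 : ℂ) ^ p * V j - toC (vm.getD j (0, 0)))‖ ≤ ((rdot a vr : ℕ) : ℝ) := by
    refine (norm_sum_le _ _).trans (le_trans (Finset.sum_le_sum fun j hj => ?_)
      (rdot_ge N a vr ha hr))
    rw [norm_mul]
    exact mul_le_mul_of_nonneg_left (hV j (Finset.mem_range.1 hj)) (norm_nonneg _)
  unfold testVal at ht
  simp only [decide_eq_true_eq] at ht
  have h3 : 2 * ((((cdot a vm).1.natAbs + (cdot a vm).2.natAbs : ℕ) : ℝ) +
      ((rdot a vr : ℕ) : ℝ)) ≤ 2 ^ q * (rho : ℝ) := by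
    exact_mod_cast ht
  rw [h1, norm_div, norm_pow, Complex.norm_ofNat, div_le_iff₀ hpos]
  have h4 := norm_add_le (toC (cdot a vm)) (∑ j ∈ Finset.range N, toC (a.getD j (0, 0)) *
        ((2 : ℂ) ^ p * V j - toC (vm.getD j (0, 0))))
  have h5 := norm_toC (cdot a vm)
  have h6 : (rho : ℝ) / 2 ^ p / 2 * 2 ^ (p + q) = 2 ^ q * (rho : ℝ) / 2 := by
    rw [pow_add]
    field_simp
  rw [h6]
  linarith

/-- **NK-D1** -/
theorem t : S_D1 := by
  intro p q rho N eqs opens x0 A hck
  unfold check at hck
  simp only [Bool.and_eq_true, decide_eq_true_eq, List.all_eq_true] at hck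
  obtain ⟨⟨⟨⟨⟨hE, hX⟩, hA⟩, hAl⟩, hT⟩, hO⟩ := hck
  refine ⟨hE, hX, ?_, ?_, ?_⟩
  · intro r hr
    have hT1 := (testRows_read _ _ _ _ _ _ A 0 hT r (by rw [hA]; exact hr)).2
    rw [zero_add, rowSum_eq] at hT1
    have hal : (A.getD r []).length = N := by
      rw [List.getD_eq_getElem _ _ (by rw [hA]; exact hr)]
      exact hAl _ (List.getElem_mem _)
    have hpos : (0 : ℝ) < 2 ^ (p + q) := by positivity
    rw [← Finset.sum_add_distrib]
    have key : ∀ k ∈ Finset.range N,
        ‖(if r = k then (1 : ℂ) else 0) - ∑ j ∈ Finset.range N, Am q A r j *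
          ((((Jb p rho eqs x0 j k).re : ℂ) + ((Jb p rho eqs x0 j k).im : ℂ) * Complex.I) /
            2 ^ p)‖ + ∑ j ∈ Finset.range N,
          ‖Am q A r j‖ * (((Jb p rho eqs x0 j k).rad : ℝ) / 2 ^ p) ≤
        ((entry p q (decide (0 + k = r)) (A.getD r [])
          (((List.range N).map (fun j =>
            ((eqs.map (fun e => (der j e).ball p (boxOf x0 rho))).map (fun b => (b.re, b.im)),
             (eqs.map (fun e => (der j e).ball p (boxOf x0 rho))).map
              (fun b => b.rad)))).getD k ([], [])).1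
          (((List.range N).map (fun j =>
            ((eqs.map (fun e => (der j e).ball p (boxOf x0 rho))).map (fun b => (b.re, b.im)),
             (eqs.map (fun e => (der j e).ball p (boxOf x0 rho))).map
              (fun b => b.rad)))).getD k ([], [])).2 : ℕ) : ℝ) / 2 ^ (p + q) := by
      intro k hk
      rw [Finset.mem_range] at hk
      rw [getD_map' _ (List.range N) k 0 ([], []) (by simpa using hk)]
      have hrk : (List.range N).getD k 0 = k := by
        rw [List.getD_eq_getElem _ _ (by simpa using hk), List.getElem_range]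
      rw [hrk]
      have h1 := entry_ge p q N (decide (0 + k = r)) (A.getD r [])
        ((eqs.map (fun e => (der k e).ball p (boxOf x0 rho))).map (fun b => (b.re, b.im)))
        ((eqs.map (fun e => (der k e).ball p (boxOf x0 rho))).map (fun b => b.rad)) hal
        (by simpa using hE) (by simpa using hE)
      refine le_trans (le_of_eq ?_) h1
      congr 1
      · congr 1
        congr 1
        · by_cases h : r = k
          · rw [if_pos h, if_pos (by rw [zero_add]; exact decide_eq_true h.symm)]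
          · rw [if_neg h, if_neg (by
              rw [zero_add, decide_eq_true_eq]
              exact fun h' => h h'.symm)]
        · refine Finset.sum_congr rfl fun j hj => ?_
          rw [Finset.mem_range] at hj
          rw [getD_map' _ _ j (Ball.mk 0 0 0) (0, 0) (by simpa [hE] using hj),
            getD_map' _ eqs j (Ex.k 0 0) (Ball.mk 0 0 0) (by rw [hE]; exact hj)]
          rfl
      · refine Finset.sum_congr rfl fun j hj => ?_
        rw [Finset.mem_range] at hj
        rw [getD_map' _ _ j (Ball.mk 0 0 0) 0 (by simpa [hE] using hj),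
          getD_map' _ eqs j (Ex.k 0 0) (Ball.mk 0 0 0) (by rw [hE]; exact hj)]
        rfl
    refine (Finset.sum_le_sum key).trans ?_
    rw [← Finset.sum_div, div_le_iff₀ hpos]
    rw [List.length_map, List.length_range] at hT1
    have hT2 : (2 : ℝ) * ((∑ k ∈ Finset.range N, entry p q (decide (0 + k = r)) (A.getD r [])
          (((List.range N).map (fun j =>
            ((eqs.map (fun e => (der j e).ball p (boxOf x0 rho))).map (fun b => (b.re, b.im)),
             (eqs.map (fun e => (der j e).ball p (boxOf x0 rho))).map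
              (fun b => b.rad)))).getD k ([], [])).1
          (((List.range N).map (fun j =>
            ((eqs.map (fun e => (der j e).ball p (boxOf x0 rho))).map (fun b => (b.re, b.im)),
             (eqs.map (fun e => (der j e).ball p (boxOf x0 rho))).map
              (fun b => b.rad)))).getD k ([], [])).2 : ℕ) : ℝ) ≤ 2 ^ (p + q) := by
      exact_mod_cast hT1
    rw [← Nat.cast_sum]
    linarith
  · intro r hr V hV
    have hT1 := (testRows_read _ _ _ _ _ _ A 0 hT r (by rw [hA]; exact hr)).1
    have hal : (A.getD r []).length = N := by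
      rw [List.getD_eq_getElem _ _ (by rw [hA]; exact hr)]
      exact hAl _ (List.getElem_mem _)
    refine val_ge p q rho N (A.getD r []) _ _ hal (by simpa using hE) (by simpa using hE) hT1 V ?_
    intro j hj
    have h1 := hV j hj
    rw [getD_map' _ _ j (Ball.mk 0 0 0) (0, 0) (by simpa [hE] using hj),
      getD_map' _ eqs j (Ex.k 0 0) (Ball.mk 0 0 0) (by rw [hE]; exact hj),
      getD_map' _ _ j (Ball.mk 0 0 0) 0 (by simpa [hE] using hj),
      getD_map' _ eqs j (Ex.k 0 0) (Ball.mk 0 0 0) (by rw [hE]; exact hj)]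
    exact h1
  · intro e he z hz h0
    have h1 := hO e he
    subst h0
    unfold Ball.Mem at hz
    rw [mul_zero, zero_sub, norm_neg] at hz
    have h2 : ‖(((e.ball p (boxOf x0 rho)).re : ℂ) +
        ((e.ball p (boxOf x0 rho)).im : ℂ) * Complex.I)‖ ^ 2 =
        ((e.ball p (boxOf x0 rho)).re : ℝ) ^ 2 + ((e.ball p (boxOf x0 rho)).im : ℝ) ^ 2 := by
      rw [← Complex.normSq_eq_norm_sq, Complex.normSq_apply]
      simp
      ring
    have h3 : ((e.ball p (boxOf x0 rho)).re : ℝ) ^ 2 + ((e.ball p (boxOf x0 rho)).im : ℝ) ^ 2 ≤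
        ((e.ball p (boxOf x0 rho)).rad : ℝ) ^ 2 := by
      rw [← h2]
      exact pow_le_pow_left₀ (norm_nonneg _) hz 2
    have h4 : ((((e.ball p (boxOf x0 rho)).re * (e.ball p (boxOf x0 rho)).re +
        (e.ball p (boxOf x0 rho)).im * (e.ball p (boxOf x0 rho)).im).natAbs : ℕ) : ℤ) =
        (e.ball p (boxOf x0 rho)).re * (e.ball p (boxOf x0 rho)).re +
        (e.ball p (boxOf x0 rho)).im * (e.ball p (boxOf x0 rho)).im := by
      rw [Int.natAbs_of_nonneg]
      exact add_nonneg (mul_self_nonneg _) (mul_self_nonneg _)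
    have h5 : (((e.ball p (boxOf x0 rho)).rad * (e.ball p (boxOf x0 rho)).rad : ℕ) : ℤ) <
        (e.ball p (boxOf x0 rho)).re * (e.ball p (boxOf x0 rho)).re +
        (e.ball p (boxOf x0 rho)).im * (e.ball p (boxOf x0 rho)).im := by
      rw [← h4]
      exact_mod_cast h1
    have h6 : ((e.ball p (boxOf x0 rho)).rad : ℝ) * ((e.ball p (boxOf x0 rho)).rad : ℝ) <
        ((e.ball p (boxOf x0 rho)).re : ℝ) * ((e.ball p (boxOf x0 rho)).re : ℝ) +
        ((e.ball p (boxOf x0 rho)).im : ℝ) * ((e.ball p (boxOf x0 rho)).im : ℝ) := by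
      exact_mod_cast h5
    nlinarith

end Pool.Agent.Helper99.CG.NKD1
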